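import Pool.Agent.J4H54.CV.Gen
set_option autoImplicit false

/-!
The regulator on `H^d(𝒳, ℚ(d))`, `d = dim 𝒳 = n + 1 ≥ 3`, for models `𝒳` of the hypersurfaces
`λ ∏_k ∏_{i ≤ r_k} (x_k - a_{k,i}) = 1` of dimension `n ≥ 2` and multidegree
`(r_0 + 1, ..., r_n + 1)` in products of `n + 1` projective lines: `∏_k r_k` unramified classes in
Milnor K-theory with linearly independent regulators, if the *critical values* of the polynomials
`P_k = ∏_i (x - a_{k,i})` are large enough. There is no hypothesis about the distances of the roots.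
Let `K` be the field `ℚ` or an imaginary quadratic field. For each `n` this holds for all but finitely
many of these hypersurfaces with algebraic integers `λ ≠ 0` and different algebraic integers
`a_{k,0}, ..., a_{k,r_k}` of `K` (`r_k ≥ 1`), up to translations of the coordinates.

In the starting files this is proved for `n = 1` (`MP_a09a03_nt.CriticalProduct`, with a better
constant), for `n ≥ 2` if `λ` is large (`GraphTowers`, not effective), and if
`|λ| ≥ 2 ∏_k (3 / D_k) ^ (r_k + 1)`, where `D_k` is the smallest mutual distance of the `a_{k,i}`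
(`MP_a09a03_nt.MultidegreeHypersurfaces`). `UniformHypersurfaces` needs `|λ| ≥ 9 ^ (n + 1)` for
different rational integers, or that all `r_k ≥ 7`, or large distances `D_k`.

The proof. Let `φ_{k,i}` be the branches of the inverse of `P_k` on the disc `|w| < R_k` without
critical values, `φ_{k,i}(0) = a_{k,i}`. The tori are the products of the curves
`x_k = φ_{k,i_k}(w_k)`, `|w_k| = ρ_k`, `λ ∏ w_k = 1`. Let `S` be a combination of the tori, and let
`c_0 ⊗ ... ⊗ c_n` be the product of unit vectors on which `S` takes its maximum `s`. The regulator of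
`S` against the symbols with the coefficients `c_0 ⊗ ... ⊗ c_n` is `-(2π)^n s` times the sum of the
energies `F_k ≥ 0` of `c_k` and `log |λ| ∏ R_k`, up to an error which is bounded by
`(2π)^n s (n + 1) (9/4)^(n+1) ∏_k F_k^(1/2) / (|λ| ∏ R_k)`: the energy inequality for the branches
bounds the Fourier coefficients of `log (φ_{k,i} - a_{k,j})`, and the tensor `S` is bounded by `s` on
all products of unit vectors.
-/

namespace Pool.Agent.Results.MP_51fc19_nt.CriticalHypersurfaces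

open Finset Polynomial

open Pool.Agent.TH826.MK (KQ symb Unramified Torus)

open Pool.Agent.TH826.MH

/-- The conclusions for the hypersurface `λ ∏_k ∏_{i ≤ r_k} (x_k - a_{k,i}) = 1` over the field `K`
with the complex embedding `σ`: the coordinate ring is a domain; the hypersurface is smooth at its
complex points over `σ` (the gradient does not vanish); the `∏_k r_k` symbols
`{u_{0,i_0}, ..., u_{n,i_n}}`, `u_{k,i} = (x_k - a_{k,i}) / (x_k - a_{k,i+1})`, `0 ≤ i < r_k`, in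
`K_{n+1} ⊗ ℚ` of the coordinate ring have unramified images in `K_{n+1} ⊗ ℚ` of every field `L` with
a homomorphism from the coordinate ring to `L` (for example of the function field); and there are
`∏_k r_k` tori of dimension `n` in the complex points (over `σ`) such that the determinant of the
regulators of the symbols on the tori does not vanish. -/
def ManyClasses.{u, v} {n : ℕ} {r : Fin (n + 1) → ℕ} {K : Type u} [Field K] (σ : K →+* ℂ) (lam : K)
    (a : ∀ k, Fin (r k + 1) → K) : Prop :=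
  IsDomain (CRing lam a) ∧
  (∀ x : Fin (n + 1) → ℂ, MvPolynomial.eval₂ σ x (eqn lam a) = 0 →
    ∃ k, MvPolynomial.eval₂ σ x (MvPolynomial.pderiv k (eqn lam a)) ≠ 0) ∧
  (∀ (L : Type v) [Field L] (f : CRing lam a →+* L) (i : ∀ k, Fin (r k)),
    KQ.map (n + 1) f (symb (ent lam a i)) ∈ Unramified L (n + 1)) ∧
  ∃ Γ : (∀ k, Fin (r k)) → Torus (CRing lam a) n,
    (∀ t θ (x : K), (Γ t).e θ (fpol lam a (MvPolynomial.C x)) = σ x) ∧
    (Matrix.of fun t i : (∀ k, Fin (r k)) => (Γ t).reg (symb (ent lam a i))).det ≠ 0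

theorem criterion.{u, v} (n : ℕ) (hn : 1 ≤ n) (r : Fin (n + 1) → ℕ) (K : Type u) [Field K]
    [NumberField K] (σ : K →+* ℂ) (lam : K) (a : ∀ k, Fin (r k + 1) → K) (hlam : IsIntegral ℤ lam)
    (ha : ∀ k i, IsIntegral ℤ (a k i)) (hinj : ∀ k, Function.Injective (a k))
    (R L : Fin (n + 1) → ℝ) (hR : ∀ k, 0 < R k)
    (hcrit : ∀ k, ∀ ξ : ℂ, (derivative (∏ i, (X - C (σ (a k i))))).eval ξ = 0 →
      R k < ‖∏ i, (ξ - σ (a k i))‖) (hL1 : ∀ k, 1 ≤ L k)
    (hLd : ∀ k, ∃ d, (∀ i j, i ≠ j → Real.log ‖σ (a k i) - σ (a k j)‖ ≤ d) ∧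
      (r k + 1) * d - Real.log (R k) ≤ L k) {k₀ k₁ : Fin (n + 1)} (hk : k₀ ≠ k₁)
    (h : 3 ^ (n + 1) * ∏ k ∈ (univ.erase k₀).erase k₁, Real.sqrt (L k) ≤ ‖σ lam‖ * ∏ k, R k) :
    ManyClasses.{u, v} σ lam a := by
  obtain ⟨m, rfl⟩ : ∃ m, n = m + 1 := ⟨n - 1, by omega⟩
  have hP1 : 1 ≤ ∏ k ∈ (univ.erase k₀).erase k₁, Real.sqrt (L k) := by
    have h1 := prod_le_prod (s := (univ.erase k₀).erase k₁) (f := fun _ => (1 : ℝ))
      (g := fun k => Real.sqrt (L k)) (fun k _ => zero_le_one)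
      (fun k _ => Real.one_le_sqrt.2 (hL1 k))
    rwa [prod_const_one] at h1
  have h3 : (3 : ℝ) ^ (m + 1 + 1) ≤ ‖σ lam‖ * ∏ k, R k := by
    refine le_trans ?_ h
    have : (0 : ℝ) < 3 ^ (m + 1 + 1) := by positivity
    nlinarith
  have h1 : (1 : ℝ) ≤ 3 ^ (m + 1 + 1) := one_le_pow₀ (by norm_num)
  have hl0 : lam ≠ 0 := by
    rintro rfl
    rw [map_zero, norm_zero, zero_mul] at h3
    linarith
  exact ⟨isDomain_CRing lam a hl0 hinj,
    Pool.Agent.J4H54.CV.smooth hR hcrit (h1.trans h3),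
    fun L _ f i => symb_mem_unramified f hlam ha i,
    Pool.Agent.J4H54.CV.exists_tori hinj hR hcrit hL1 hLd hk h⟩

/-- Let `n ≥ 2`.

(1) *The criterion.* Let `K` be a number field, `σ` a complex embedding of `K`, let `λ` and `a_{k,i}`
(`0 ≤ k ≤ n`, `0 ≤ i ≤ r_k`) be algebraic integers of `K`, `a_{k,i} ≠ a_{k,j}` for `i ≠ j`, and
`P_k = ∏_i (x - σ a_{k,i})`. Let `R_k > 0` be real numbers such that `|P_k(ξ)| > R_k` for all complex
zeros `ξ` of the derivative of `P_k`, let `d_k ≥ |σ a_{k,i} - σ a_{k,j}|` for all `i`, `j`, and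
`L_k = max (1, log (d_k ^ (r_k + 1) / R_k))`. Suppose that for two different indices `k₀`, `k₁`
`3 ^ (n + 1) ∏_{k ≠ k₀, k₁} L_k ^ (1/2) ≤ |σ λ| ∏_k R_k`. Then `ManyClasses` holds for the hypersurface
`λ ∏_k ∏_i (x_k - a_{k,i}) = 1`.

(2) *An explicit bound.* Let `K` be a number field, `σ` a complex embedding of `K`, let `λ` and
`a_{k,i}` be algebraic integers of `K`, and suppose that `|σ a_{k,i} - σ a_{k,j}| ≥ 1` for `i ≠ j`. Let
`C = 10 ^ 13`, or `C = 9216` if all `a_{k,i}` are rational integers. If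
`|σ λ| ^ 2 ∏_k |σ a_{k,i_k} - σ a_{k,j_k}| ≥ C ^ (n + 1)` for some `i_k`, `j_k`, then `ManyClasses` holds
for the hypersurface `λ ∏_k ∏_i (x_k - a_{k,i}) = 1`.

(3) *All but finitely many.* Let `K` be a number field with only one infinite place (`ℚ` or an
imaginary quadratic field), `σ` a complex embedding of `K`. There are only finitely many
`(r, λ, a)` with algebraic integers `λ ≠ 0`, `r_k ≥ 1` and different algebraic integers
`a_{k,0} = 0, a_{k,1}, ..., a_{k,r_k}` (`0 ≤ k ≤ n`) of `K`, such that `ManyClasses` does not hold for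
the hypersurface `λ ∏_k ∏_i (x_k - a_{k,i}) = 1`. -/
theorem result.{u, v} (n : ℕ) (hn : 2 ≤ n) (K : Type u) [Field K] [NumberField K] (σ : K →+* ℂ) :
    (∀ (r : Fin (n + 1) → ℕ) (lam : K) (a : ∀ k, Fin (r k + 1) → K), IsIntegral ℤ lam →
      (∀ k i, IsIntegral ℤ (a k i)) → (∀ k, Function.Injective (a k)) →
      ∀ R d : Fin (n + 1) → ℝ, (∀ k, 0 < R k) →
      (∀ k, ∀ ξ : ℂ, (derivative (∏ i, (X - C (σ (a k i))))).eval ξ = 0 →
        R k < ‖∏ i, (ξ - σ (a k i))‖) →
      (∀ k i j, ‖σ (a k i) - σ (a k j)‖ ≤ d k) → ∀ k₀ k₁ : Fin (n + 1), k₀ ≠ k₁ →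
      3 ^ (n + 1) * ∏ k ∈ (univ.erase k₀).erase k₁,
        Real.sqrt (max 1 (Real.log (d k ^ (r k + 1) / R k))) ≤ ‖σ lam‖ * ∏ k, R k →
      ManyClasses.{u, v} σ lam a) ∧
    (∀ (r : Fin (n + 1) → ℕ) (lam : K) (a : ∀ k, Fin (r k + 1) → K), IsIntegral ℤ lam →
      (∀ k i, IsIntegral ℤ (a k i)) → (∀ k i j, i ≠ j → 1 ≤ ‖σ (a k i) - σ (a k j)‖) →
      ∀ C : ℝ, (C = 10 ^ 13 ∨ (C = 9216 ∧ ∀ k i, ∃ z : ℤ, a k i = z)) →
      ∀ i j : (∀ k, Fin (r k + 1)),
        C ^ (n + 1) ≤ ‖σ lam‖ ^ 2 * ∏ k, ‖σ (a k (i k)) - σ (a k (j k))‖ →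
      ManyClasses.{u, v} σ lam a) ∧
    (Subsingleton (NumberField.InfinitePlace K) →
      {p : Σ r : Fin (n + 1) → ℕ, K × ∀ k, Fin (r k + 1) → K | p.2.1 ≠ 0 ∧ IsIntegral ℤ p.2.1 ∧
        (∀ k i, IsIntegral ℤ (p.2.2 k i)) ∧ (∀ k, 1 ≤ p.1 k) ∧
        (∀ k, Function.Injective (p.2.2 k)) ∧ (∀ k, p.2.2 k 0 = 0) ∧
        ¬ ManyClasses.{u, v} σ p.2.1 p.2.2}.Finite) := by
  have h2 : ∀ (r : Fin (n + 1) → ℕ) (lam : K) (a : ∀ k, Fin (r k + 1) → K), IsIntegral ℤ lam →
      (∀ k i, IsIntegral ℤ (a k i)) → (∀ k i j, i ≠ j → 1 ≤ ‖σ (a k i) - σ (a k j)‖) →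
      ∀ C : ℝ, (C = 10 ^ 13 ∨ (C = 9216 ∧ ∀ k i, ∃ z : ℤ, a k i = z)) →
      ∀ i j : (∀ k, Fin (r k + 1)),
        C ^ (n + 1) ≤ ‖σ lam‖ ^ 2 * ∏ k, ‖σ (a k (i k)) - σ (a k (j k))‖ →
      ManyClasses.{u, v} σ lam a := by
    intro r lam a hlam ha hsep C hC i j h
    obtain ⟨R, L, hR, hL, hcrit, hd, hh⟩ := Pool.Agent.J4H54.CV.main_sep σ lam a hsep hC i j h
    have hlast : (0 : Fin (n + 1)) ≠ Fin.last n := by
      intro e
      have := congrArg Fin.val e
      simp at this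
      omega
    refine criterion.{u, v} n (by omega) r K σ lam a hlam ha (fun k i j hij => ?_) R L hR hcrit hL
      hd hlast hh
    by_contra hne
    have h1 := hsep k i j hne
    rw [hij, sub_self, norm_zero] at h1
    linarith
  refine ⟨fun r lam a hlam ha hinj R d hR hcrit hd k₀ k₁ hk h => ?_, h2, fun hK => ?_⟩
  · refine criterion.{u, v} n (by omega) r K σ lam a hlam ha hinj R
      (fun k => max 1 (Real.log (d k ^ (r k + 1) / R k))) hR hcrit (fun k => le_max_left _ _)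
      (fun k => ?_) hk h
    rcases Nat.eq_zero_or_pos (r k) with h0 | h0
    · refine ⟨Real.log (R k), fun i j hij => absurd (Fin.ext ?_) hij, ?_⟩
      · have h1 := i.isLt
        have h2 := j.isLt
        omega
      · rw [h0]
        have := le_max_left 1 (Real.log (d k ^ (0 + 1) / R k))
        push_cast
        linarith
    · have hpos : ∀ i j, i ≠ j → 0 < ‖σ (a k i) - σ (a k j)‖ := fun i j hij =>
        norm_pos_iff.2 (sub_ne_zero.2 fun e => hij (hinj k (σ.injective e)))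
      have hdk : 0 < d k := by
        have h01 : (0 : Fin (r k + 1)) ≠ ⟨1, by omega⟩ := by
          intro e
          have := congrArg Fin.val e
          simp at this
        exact (hpos _ _ h01).trans_le (hd k _ _)
      refine ⟨Real.log (d k), fun i j hij => Real.log_le_log (hpos i j hij) (hd k i j), ?_⟩
      refine le_trans (le_of_eq ?_) (le_max_right _ _)
      rw [Real.log_div (by positivity) (hR k).ne', Real.log_pow]
      push_cast
      ring
  · refine (Pool.Agent.J4H54.CV.finite_small' n σ ((10 ^ 13) ^ (n + 1))).subset ?_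
    rintro ⟨r, lam, a⟩ ⟨hm, hmi, ha, hr, hb, h0, hnot⟩
    refine ⟨hm, hmi, ha, hr, hb, h0, fun i j => ?_⟩
    by_contra hcon
    refine hnot (h2 r lam a hmi ha (fun k i j hij => ?_) _ (Or.inl rfl) i j (not_lt.1 hcon))
    rw [← map_sub]
    exact Pool.Agent.J4H54.CV.one_le_norm_of_sub σ ((ha k i).sub (ha k j))
      (sub_ne_zero.2 fun e => hij (hb k e))

end Pool.Agent.Results.MP_51fc19_nt.CriticalHypersurfaces
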