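import Pool.Agent.J4H54.KT.MainC
set_option autoImplicit false

/-!
The regulator on `H^d(𝒳, ℚ(d))`, `d = dim 𝒳 = n + q + 1 ≥ 3`, for models `𝒳` of fibrations over
products of lines, *uniformly in the degrees*: on the varieties
`z + y_1 + ... + y_q + 1/(z y_1 ^ v_1 ... y_q ^ v_q) = λ ∏_k ∏_{0 ≤ i ≤ m_k} (x_k - a_{k,i})` of
dimension `n + q ≥ 2` over a number field, where `n ≥ 1`, `q ≥ 0`, `v_i ≥ 1`, there are
`m_1 ... m_n` unramified classes with linearly independent regulators, with a bound for `λ` which
does not depend on the degrees `m_k` and on the positions of the roots `a_{k,i}`. For arbitrary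
different rational integers `a_{k,i}` it is enough that
`|λ| ≥ 3 (2 + v_1 + ... + v_q) 9 ^ n`, for arbitrary different integers of an imaginary quadratic
field that `|λ| ≥ 3 (2 + v_1 + ... + v_q) 65536 ^ n`, and all integers `λ ≠ 0` are allowed if the
`m_k` are large. For `v_i = 1` the fibres over the `x`-space are the members of the pencil
`z + y_1 + ... + y_q + 1/(z y_1 ... y_q) = t` of Calabi-Yau varieties of dimension `q` (points,
elliptic curves, K3 surfaces, ...) mirror to the Dwork pencil.

The starting result `MP_15b3df_nt.UniformFibrations` has the hypothesis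
`|λ| ∏_k (D_k / 3) ^ (m_k + 1) ≥ 2 + v_1 + ... + v_q`, where `D_k` is the smallest mutual distance
of the `a_{k,i}`; for `D_k = 1` it needs `|λ|` exponentially large in the degrees.

The proof. On the tori used, the `n` products `∏_i (x_k - a_{k,i})` and the `y_j` run through
circles, and `z` is the large root. For fixed `y` the integral of the regulator over the remaining
`n + 1` variables (one of them being the parameter of the regulator form) is a sum of products of
means of functions of one variable and of a small error. The matrix of the integrals is, up to a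
factor, the matrix unit of `log |z|` at the torus plus the Laplacian of the product of `n` complete
graphs with the weights `log |a_{k,i} - a_{k,j}| ≥ 0` (for `D_k = 1`). At a maximum of the
coefficients the main term is positive and larger than the error for every `y`; so it is positive
after the integration over `y`.
-/

namespace Pool.Agent.Results.MP_51fc19_nt.DegreeFreeFibrations

open Pool.Agent.TH690.PF (PRing mPhi mPhi_ne_C isDomain_PRing SmoothPts UnramSymb IndepReg
  unramSymb)

/-- Let `n ≥ 1` (below `n + 1` is written for `n`), `q ≥ 0`, `n + q ≥ 2`, let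
`v_i = w_i + 1 ≥ 1`, `i = 1, ..., q`, and `m_1, ..., m_n ≥ 0` be integers, let `σ` be a complex
embedding of the number field `K`, and let `λ` and `a_{k,i}`, `1 ≤ k ≤ n`, `0 ≤ i ≤ m_k`, be
algebraic integers of `K`. Let `D_k > 0` be real numbers with
`|σ(a_{k,i}) - σ(a_{k,j})| ≥ D_k` for all `k` and `i ≠ j`. For each `k` let
`γ_k = 2 ^ max(m_k - 168, 0) / 65536`, or, if all `σ(a_{k,i})` (for this `k`) are real,
`γ_k = 2 ^ max(m_k - 3, 0) / 9`, and suppose that
`|σ(λ)| ∏_k D_k ^ (m_k + 1) γ_k ≥ 3 (2 + v_1 + ... + v_q)`.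

Then the coordinate ring of the affine hypersurface `F = Y z² + Y (y_1 + ... + y_q - Φ) z + 1 = 0`,
`Y = y_1 ^ v_1 ... y_q ^ v_q`, `Φ = λ ∏_k ∏_i (x_k - a_{k,i})`, of dimension `n + q` (that is
`z + y_1 + ... + y_q + 1/(z y_1 ^ v_1 ... y_q ^ v_q) = Φ`) is a domain; the hypersurface is smooth
at all its complex points over `σ` (the partial derivatives `∂F/∂z`, `∂F/∂y_k` and
`∂F/∂x_j = - Y z ∂Φ/∂x_j` do not vanish simultaneously); for all `i = (i_1, ..., i_n)` with
`1 ≤ i_k ≤ m_k` the symbol `{z, (x_1 - a_{1,i_1})/(x_1 - a_{1,0}), ...,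
(x_n - a_{n,i_n})/(x_n - a_{n,0}), y_1, ..., y_q}` on the open part `Φ ≠ 0` is unramified at all
discrete valuations of the function field; and there are `m_1 ... m_n` tori of dimension `n + q` in
the complex points (over `σ`) of the open part, such that the determinant of the regulators on the
tori of these `m_1 ... m_n` symbols does not vanish. -/
theorem result.{u, v} (n q : ℕ) (hnq : 0 < n + q) (w : Fin q → ℕ) (m : Fin (n + 1) → ℕ)
    (K : Type u) [Field K] [NumberField K] (σ : K →+* ℂ) (lam : K) (hlam : IsIntegral ℤ lam)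
    (a : (k : Fin (n + 1)) → Fin (m k + 1) → K) (hint : ∀ k i, IsIntegral ℤ (a k i))
    (D γ : Fin (n + 1) → ℝ) (hD : ∀ k, 0 < D k)
    (hsep : ∀ k i j, i ≠ j → D k ≤ ‖σ (a k i) - σ (a k j)‖)
    (hγ : ∀ k, γ k = 2 ^ (m k - 168) / 65536 ∨
      ((∀ i, (σ (a k i)).im = 0) ∧ γ k = 2 ^ (m k - 3) / 9))
    (h : 3 * (2 + ∑ i, ((w i : ℝ) + 1)) ≤ ‖σ lam‖ * ∏ k, (D k ^ (m k + 1) * γ k)) :
    IsDomain (PRing w (mPhi lam a)) ∧ SmoothPts w σ (mPhi lam a) ∧
      UnramSymb.{u, v} w lam a ∧ IndepReg w σ lam a := by
  have _ := hnq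
  have hl0 : lam ≠ 0 := by
    intro h0
    rw [h0, map_zero, norm_zero, zero_mul] at h
    have h1 : 0 ≤ ∑ i, ((w i : ℝ) + 1) := Finset.sum_nonneg fun i _ => by positivity
    linarith
  obtain ⟨h1, h2⟩ := Pool.Agent.J4H54.KT.main_fibC w (σ := σ) lam a D γ hD hsep hγ h
  exact ⟨isDomain_PRing (mPhi_ne_C lam a (Nat.succ_pos _) hl0), h1,
    unramSymb w (Nat.succ_pos _) hint hlam hl0, h2⟩

end Pool.Agent.Results.MP_51fc19_nt.DegreeFreeFibrations
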