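import Pool.Agent.J4H54.KT.EllC
import Pool.Agent.TH826.EF.Ring
set_option autoImplicit false

/-!
The regulator on `H^3(𝒳, ℚ(3))`, `dim 𝒳 = 3`, for models `𝒳` of elliptic surfaces over the line,
*uniformly in the geometric genus*: on the surfaces
`y + 1/y + z + 1/z = λ ∏_{0 ≤ i ≤ m} (x - a_i)` over a number field (elliptic surfaces over the
`x`-line of geometric genus `m`, K3 surfaces for `m = 1`) there are `m` unramified classes with
linearly independent regulators, with a bound for `λ` which does not depend on `m` and on the
positions of the roots `a_i`. For arbitrary different rational integers `a_i` it is enough that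
`|λ| ≥ 108`, for arbitrary different integers of an imaginary quadratic field that
`|λ| ≥ 12 * 65536`, and all integers `λ ≠ 0` are allowed if `m ≥ 10`, resp. `m ≥ 188`.

The starting result `MP_51fc19_nt.EllipticFibrations` (for `n = 0` there) assumes that `|λ|` is
larger than a constant which depends on `K`, `σ` and all the `a_i` and is not given.

The proof. On the tori used, `∏_i (x - a_i)` and `y` run through circles (`|y| = 1`), and `z` is the
large root. For fixed `y` the integral of the regulator over the remaining two variables (one of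
them being the parameter of the regulator form) is a sum of products of means of functions of one
variable and of a small error. The matrix of the integrals is, up to a factor, the matrix unit of
`log |z|` at the torus plus the Laplacian of the complete graph with the weights
`log |a_i - a_j| ≥ 0` (for `D = 1`). At a maximum of the coefficients the main term is positive and
larger than the error for every `y`; so it is positive after the integration over `y`.
-/

namespace Pool.Agent.Results.MP_51fc19_nt.UniformEllipticSurfaces

open Pool.Agent.TH826.MK (KQ symb Unramified Torus)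

open Pool.Agent.TH826.DC (dPhi)

open Pool.Agent.TH826.EF

open Pool.Agent.J4H54.KT (one1 zs unimod main_ell)

/-- Let `σ` be a complex embedding of the number field `K`, let `m ≥ 0` be an integer, let `λ` and
`a_0, ..., a_m` be algebraic integers of `K`, and let `D > 0` be a real number with
`|σ(a_i) - σ(a_j)| ≥ D` for all `i ≠ j`. Let `γ = 2 ^ max(m - 168, 0) / 65536`, or, if all `σ(a_i)`
are real, `γ = 2 ^ max(m - 3, 0) / 9`, and suppose that `|σ(λ)| D ^ (m + 1) γ ≥ 12`.

Then the coordinate ring of the affine surface `F = y z² + (y² + 1 - Φ y) z + y = 0`,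
`Φ = λ ∏_i (x - a_i)` (that is `y + 1/y + z + 1/z = Φ`), is a domain; the surface is smooth at all
its complex points over `σ` (the partial derivatives `∂F/∂y`, `∂F/∂z` and `- ∂F/∂x = y z ∂Φ/∂x` do
not vanish simultaneously); for all `i ≠ j` the symbol
`{z, y, - (x - a_j)/(x - a_i)}` on the open part `y z Φ ≠ 0` is unramified at all discrete
valuations of the function field; and there are `m` tori of dimension `2` in the complex points
(over `σ`) of the open part, such that the determinant of the regulators on the tori of the `m`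
symbols `{z, y, - (x - a_i)/(x - a_0)}`, `1 ≤ i ≤ m`, does not vanish. -/
theorem result (m : ℕ) (K : Type*) [Field K] [NumberField K] (σ : K →+* ℂ)
    (lam : K) (hlam : IsIntegral ℤ lam) (a : Fin (m + 1) → K) (hint : ∀ i, IsIntegral ℤ (a i))
    (D γ : ℝ) (hD : 0 < D) (hsep : ∀ i j, i ≠ j → D ≤ ‖σ (a i) - σ (a j)‖)
    (hγ : γ = 2 ^ (m - 168) / 65536 ∨ ((∀ i, (σ (a i)).im = 0) ∧ γ = 2 ^ (m - 3) / 9))
    (h : 12 ≤ ‖σ lam‖ * (D ^ (m + 1) * γ)) :
    IsDomain (ERing lam (one1 K m) a) ∧
    (∀ (x : Fin 1 → ℂ) (y z : ℂ),
      y * z ^ 2 + (y ^ 2 + 1 - MvPolynomial.eval₂ σ x (dPhi lam (one1 K m) a) * y) * z + y = 0 →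
      z ^ 2 + (2 * y - MvPolynomial.eval₂ σ x (dPhi lam (one1 K m) a)) * z + 1 ≠ 0 ∨
      2 * y * z + (y ^ 2 + 1 - MvPolynomial.eval₂ σ x (dPhi lam (one1 K m) a) * y) ≠ 0 ∨
      MvPolynomial.eval₂ σ x (MvPolynomial.pderiv 0 (dPhi lam (one1 K m) a)) * y * z ≠ 0) ∧
    (∀ (L : Type*) [Field L] [Algebra (ERing lam (one1 K m) a) L]
      [IsFractionRing (ERing lam (one1 K m) a) L],
      ∃ f : EOpen lam (one1 K m) a →+* L,
        (∀ b, f (toE lam (one1 K m) a b) = algebraMap (ERing lam (one1 K m) a) L b) ∧
        ∀ S : Fin 2 → Fin (m + 1), Function.Injective S →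
          KQ.map 3 f (symb (eent lam (one1 K m) a S)) ∈ Unramified L 3) ∧
    ∃ Γ : Fin m → Torus (EOpen lam (one1 K m) a) 2,
      (∀ t θ (x : K), (Γ t).e θ (ecst lam (one1 K m) a x) = σ x) ∧
      (Matrix.of fun t i : Fin m => (Γ t).reg (symb (eent lam (one1 K m) a (zs i)))).det ≠ 0 := by
  obtain ⟨h1, h2⟩ := main_ell hD hsep hγ h
  have hA := unimod (K := K) (m := m) hint
  have hl0 : lam ≠ 0 := by
    intro h0
    rw [h0, map_zero, norm_zero, zero_mul] at h
    norm_num at h
  have hrow : ∀ e, one1 K m e ≠ 0 := fun e h0 => one_ne_zero (congrFun h0 0)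
  refine ⟨isDomain_ERing hrow hl0, h1, ?_, h2⟩
  intro L _ _ _
  have hinj : Function.Injective (algebraMap (ERing lam (one1 K m) a) L) :=
    IsFractionRing.injective _ _
  have hne : algebraMap (ERing lam (one1 K m) a) L (eDel lam (one1 K m) a) ≠ 0 := by
    rw [Ne, map_eq_zero_iff _ hinj]
    exact eDel_ne_zero hrow hl0
  refine ⟨liftE (algebraMap (ERing lam (one1 K m) a) L) hne, fun b => liftE_toE _ _ _,
    fun S hS => ?_⟩
  exact symb_mem_unramified _ hlam hA hS

end Pool.Agent.Results.MP_51fc19_nt.UniformEllipticSurfaces
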