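import Pool.Agent.J4H54.KT.MainC
set_option autoImplicit false

/-!
The regulator on `H^d(𝒳, ℚ(d))`, `d = dim 𝒳 = n + 1 ≥ 3`, for models `𝒳` of the hypersurfaces
`λ ∏_k ∏_{i ≤ r_k} (x_k - a_{k,i}) = 1` of dimension `n ≥ 2` and multidegree
`(r_0 + 1, ..., r_n + 1)` in products of `n + 1` projective lines, *uniformly*: `∏_k r_k` unramified
classes in Milnor K-theory with linearly independent regulators, with a bound `c ^ (n + 1)` for `λ`
which does not depend on the degrees and on the positions of the roots. For arbitrary different
rational integers `a_{k,i}` it is enough that `|λ| ≥ 9 ^ (n + 1)`, and all integers `λ ≠ 0` are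
allowed if all `r_k ≥ 7`. For arbitrary different integers of an imaginary quadratic field it is
enough that `|λ| ≥ 65536 ^ (n + 1)`, and all integers `λ ≠ 0` are allowed if all `r_k ≥ 184`.

In the starting files the same is proved for all large `λ` without a bound (`GraphTowers`, for much
more general hypersurfaces), and for
`|λ| ≥ 2 ∏_k (3 / D_k) ^ (r_k + 1)`, where `D_k` is the smallest mutual distance of the `a_{k,i}`
(`MP_a09a03_nt.MultidegreeHypersurfaces`). In dimension `n = 1` the starting result
`MP_a09a03_nt.CriticalProduct` is stronger.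

The proof. Near the point `(a_{0,i_0}, ..., a_{n,i_n})` there is the torus on which the products
`∏_i (x_k - a_{k,i})` run through circles. The integral of the regulator of the symbol
`{x_0 - a_{0,k_0}, ..., x_n - a_{n,k_n}}` over the torus is a sum of products of means of functions
of one variable and of a small error, since only those products of the Fourier modes of the `n + 1`
functions contribute in which all of them are constant or all of them are not. So up to a factor
and the error the matrix of the regulators is `log |λ|` plus the Laplacian of the product of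
`n + 1` complete graphs with the weights `log |a_{k,i} - a_{k,j}| ≥ 0` (for `D_k = 1`). At a maximum
of the coefficients the main term dominates; the error is small with absolute constants, since the
sum of the reciprocal distances of `a_{k,i}` from the other roots is bounded by the product of
these distances (packing of discs in the complex case).
-/

namespace Pool.Agent.Results.MP_51fc19_nt.UniformHypersurfaces

open Pool.Agent.TH826.MK (KQ symb Unramified Torus)

open Pool.Agent.TH826.MH

/-- Let `n ≥ 2` and `r_0, ..., r_n ≥ 0`, let `σ` be a complex embedding of the number field `K`, and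
let `λ` and `a_{k,i}` (`k ≤ n`, `0 ≤ i ≤ r_k`) be algebraic integers of `K`. Let `D_k > 0` be real
numbers with `|σ a_{k,i} - σ a_{k,j}| ≥ D_k` for `i ≠ j`. For each `k` let
`γ_k = 2 ^ max(r_k - 168, 0) / 65536`, or, if all `σ a_{k,i}` (for this `k`) are real,
`γ_k = 2 ^ max(r_k - 3, 0) / 9`, and suppose that `|σ λ| ∏_k D_k ^ (r_k + 1) γ_k ≥ 1`.

(For `K = ℚ`: this holds with `D_k = 1` for arbitrary different integers `a_{k,i}` (for each `k`) if
`|λ| ≥ 9 ^ (n + 1)`; for arbitrary different integers and all integers `λ ≠ 0` if all `r_k ≥ 7`;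
and for all integers `λ ≠ 0` if all `r_k ≥ 1` and the mutual distances are at least `3`. For `K`
imaginary quadratic: for arbitrary different integers `a_{k,i}` of `K` if `|λ| ≥ 65536 ^ (n + 1)`,
and for arbitrary different integers and all integers `λ ≠ 0` of `K` if all `r_k ≥ 184`.)

Then the coordinate ring of the `n`-dimensional hypersurface `λ ∏_k ∏_i (x_k - a_{k,i}) = 1` is a
domain; the hypersurface is smooth (the gradient does not vanish at the complex points over `σ`); the
`∏_k r_k` symbols `{u_{0,i_0}, ..., u_{n,i_n}}`, `u_{k,i} = (x_k - a_{k,i}) / (x_k - a_{k,i+1})`,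
`0 ≤ i < r_k`, in `K_{n+1} ⊗ ℚ` of the coordinate ring have unramified images in `K_{n+1} ⊗ ℚ` of
every field `L` with a homomorphism from the coordinate ring to `L` (for example of the function
field); and there are `∏_k r_k` tori of dimension `n` in the complex points (over `σ`) of the
hypersurface, such that the determinant of the regulators of the symbols on the tori does not
vanish. -/
theorem result.{u, v} (n : ℕ) (hn : 2 ≤ n) (r : Fin (n + 1) → ℕ) (K : Type u) [Field K]
    [NumberField K] (σ : K →+* ℂ) (lam : K) (a : ∀ k, Fin (r k + 1) → K) (hlam : IsIntegral ℤ lam)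
    (ha : ∀ k i, IsIntegral ℤ (a k i)) (D γ : Fin (n + 1) → ℝ)
    (hD : ∀ k, 0 < D k) (hsep : ∀ k i j, i ≠ j → D k ≤ ‖σ (a k i) - σ (a k j)‖)
    (hγ : ∀ k, γ k = 2 ^ (r k - 168) / 65536 ∨
      ((∀ i, (σ (a k i)).im = 0) ∧ γ k = 2 ^ (r k - 3) / 9))
    (h : 1 ≤ ‖σ lam‖ * ∏ k, (D k ^ (r k + 1) * γ k)) :
    IsDomain (CRing lam a) ∧
    (∀ x : Fin (n + 1) → ℂ, MvPolynomial.eval₂ σ x (eqn lam a) = 0 →
      ∃ k, MvPolynomial.eval₂ σ x (MvPolynomial.pderiv k (eqn lam a)) ≠ 0) ∧
    (∀ (L : Type v) [Field L] (f : CRing lam a →+* L) (i : ∀ k, Fin (r k)),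
      KQ.map (n + 1) f (symb (ent lam a i)) ∈ Unramified L (n + 1)) ∧
    ∃ Γ : (∀ k, Fin (r k)) → Torus (CRing lam a) n,
      (∀ t θ (x : K), (Γ t).e θ (fpol lam a (MvPolynomial.C x)) = σ x) ∧
      (Matrix.of fun t i : (∀ k, Fin (r k)) => (Γ t).reg (symb (ent lam a i))).det ≠ 0 := by
  obtain ⟨m, rfl⟩ : ∃ m, n = m + 1 := ⟨n - 1, by omega⟩
  have hl0 : lam ≠ 0 := by
    rintro rfl
    rw [map_zero, norm_zero, zero_mul] at h
    linarith
  have hinj : ∀ k, Function.Injective (a k) := by
    intro k i j hij
    by_contra hne
    have h1 := hsep k i j hne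
    rw [hij, sub_self, norm_zero] at h1
    linarith [hD k]
  obtain ⟨h1, h2⟩ := Pool.Agent.J4H54.KT.mainC (σ := σ) lam a D γ hD hsep hγ h
  exact ⟨isDomain_CRing lam a hl0 hinj, h1, fun L _ f i => symb_mem_unramified f hlam ha i, h2⟩

end Pool.Agent.Results.MP_51fc19_nt.UniformHypersurfaces
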